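import Pool.Agent.Lib.helper21.Geff

set_option autoImplicit false
set_option linter.unusedSimpArgs false
set_option linter.unusedVariables false

/-! Generalized one-sided forbidding grammars of degree (2,1) and (1,2) with 15 nonterminals and 13 rules
with nonempty forbidding context generate all recursively enumerable languages. -/

namespace Pool.Agent.Results.MP_fc15dd_lc.Bounded

open Pool.Agent.Lib.helper21.Geff List Relation Symbol

/-- One derivation step; a rule `(A, x, F)` is `(A → x, F)`. -/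
def Step {T N : Type} (PL PR : Set (N × List (Symbol T N) × Set (List N))) (α β : List (Symbol T N)) : Prop :=
  ∃ u v A x F, α = u ++ nonterminal A :: v ∧ β = u ++ x ++ v ∧
    ((A, x, F) ∈ PL ∧ (∀ f ∈ F, ¬ f.map nonterminal <:+: u) ∨
      (A, x, F) ∈ PR ∧ ∀ f ∈ F, ¬ f.map nonterminal <:+: v)

/-- `L` is generated by a generalized one-sided forbidding grammar of degree `(m, n)` with at most `k`
nonterminals and at most `l` rules with nonempty forbidding context. -/
def GenBy {T : Type} (m n k l : ℕ) (L : List T → Prop) : Prop :=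
  ∃ (N : Type) (_ : Finite N) (S : N) (PL PR : Set (N × List (Symbol T N) × Set (List N))),
    PL.Finite ∧ PR.Finite ∧ (∀ r ∈ PL, ∀ f ∈ r.2.2, f.length ≤ m) ∧ (∀ r ∈ PR, ∀ f ∈ r.2.2, f.length ≤ n) ∧
      Nat.card N ≤ k ∧ {r ∈ PL ∪ PR | r.2.2 ≠ ∅}.ncard ≤ l ∧
        ∀ w, L w ↔ ReflTransGen (Step PL PR) [nonterminal S] (w.map terminal)

inductive N | s0 | s1 | s | g | h | z0 | z1 | p (o b m : Bool)
  deriving DecidableEq, Fintype

open N

variable {T : Type}

def pl (x : Bool × Bool) : N := p x.1 x.2 false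

def Good (X Y : N) : Prop := ∀ b, X = p true b true ↔ Y = p false b true

def cr : Fin 5 ⊕ Bool × Bool × Bool → N × List (Symbol T N) × Set (List N)
  | .inl 0 => (z0, [nonterminal z1], {f | ∃ X Y, f = [X, Y] ∧ ¬ Good X Y})
  | .inl 1 => (z1, [nonterminal z0], {f | ∃ o b, f = [p o b true]})
  | .inl 2 => (z0, [], {f | f = [s] ∨ ∃ o b m, f = [p o b m]})
  | .inl 3 => (g, [], {[s1], [z0], [z1]})
  | .inl 4 => (h, [], {[s1], [z0], [z1]})
  | .inr (o, b, false) => (p o b false, [nonterminal (p o b true)], {[z1]})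
  | .inr (o, b, true) => (p o b true, [], {[s1], [z0]})

variable (D : Set (List (Bool × Bool) × List (Bool × Bool))) (u : T → List (Bool × Bool))
  (i₀ i₁ m₀ : List (Bool × Bool))

inductive RL : N × List (Symbol T N) × Set (List N) → Prop
  | a : RL (s0, (g :: i₀.map pl ++ [s1]).map nonterminal, ∅)
  | b (a) : RL (s1, ((u a).map pl ++ [s1]).map nonterminal ++ [terminal a], ∅)
  | c : RL (s1, (i₁.map pl ++ [s, h, z0]).map nonterminal, ∅)
  | d {l r} : (l, r) ∈ D → RL (s, (l.map pl ++ s :: r.map pl).map nonterminal, ∅)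
  | e : RL (s, (m₀.map pl).map nonterminal, ∅)
  | f : RL (cr (.inl 0))
  | g : RL (cr (.inl 1))
  | h : RL (cr (.inl 2))

inductive RR : N × List (Symbol T N) × Set (List N) → Prop
  | a : RR (cr (.inl 3))
  | b : RR (cr (.inl 4))
  | c (o b) : RR (cr (.inr (o, b, false)))
  | d (o b) : RR (cr (.inr (o, b, true)))

def vl (t : Bool) : N → Language (Bool × Bool)
  | s => {m | Der D m₀ m}
  | p o b m => if m && t then 1 else {[(o, b)]}
  | _ => 1

theorem cut0 {N : Type} {u v : List (Symbol T N)} {A} {a : List N} {w : List T}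
    (e : a.map nonterminal ++ w.map terminal = u ++ nonterminal A :: v) :
    ∃ a₁ a₂, a = a₁ ++ A :: a₂ ∧ u = a₁.map nonterminal ∧ v = a₂.map nonterminal ++ w.map terminal := by
  induction a generalizing u with
  | nil => obtain ⟨_, -, ⟨⟩⟩ := mem_map.1 (Eq.subst (motive := (nonterminal A ∈ ·)) e.symm (by simp))
  | cons B a ih =>
    obtain _ | ⟨_, u⟩ := u
    · cases e; exact ⟨[], a, rfl, rfl, rfl⟩
    obtain ⟨rfl, e'⟩ := cons.inj e
    obtain ⟨a₁, a₂, rfl, rfl, b⟩ := ih e'
    exact ⟨B :: a₁, a₂, rfl, rfl, b⟩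

theorem cut {N : Type} {u v : List (Symbol T N)} {A C} {a : List N} {w : List T}
    (e : a.map nonterminal ++ nonterminal C :: w.map terminal = u ++ nonterminal A :: v) :
    u = a.map nonterminal ∧ A = C ∧ v = w.map terminal ∨ ∃ a₁ a₂, a = a₁ ++ A :: a₂ ∧ u = a₁.map nonterminal ∧
      v = a₂.map nonterminal ++ nonterminal C :: w.map terminal := by
  obtain ⟨a₁, a₂, b, rfl, rfl⟩ := cut0 (a := a ++ [C]) (by simpa using e)
  obtain rfl | ⟨a₂, B, rfl⟩ := eq_nil_or_concat' a₂
  · obtain ⟨rfl, ⟨⟩⟩ := append_inj' b rfl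
    exact .inl ⟨rfl, rfl, rfl⟩
  · obtain ⟨rfl, ⟨⟩⟩ := append_inj' (b.trans (append_assoc a₁ (A :: a₂) _).symm) rfl
    exact .inr ⟨a₁, a₂, rfl, rfl, by simp⟩

theorem vl_pl (t) (x : List (Bool × Bool)) : ((x.map pl).map (vl D m₀ t)).prod = {x} := by
  induction x with
  | nil => rfl
  | cons a x ih => rw [map_cons, map_cons, prod_cons, ih]; exact Set.image2_singleton

def pend : N → List Bool
  | p true b true => [b]
  | _ => []

theorem okp (x : List (Bool × Bool)) : ∀ A ∈ x.map pl, A ≠ s0 ∧ A ≠ s1 ∧ A ≠ z0 ∧ A ≠ z1 :=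
  forall_mem_map.2 fun _ _ => by simp [pl]

theorem trans : ∀ (a : List N) X, IsChain Good (X :: a ++ [h]) → ∀ m ∈ (a.map (vl D m₀ true)).prod,
    ∃ m' ∈ (a.map (vl D m₀ false)).prod, ∀ st, Bal st m →
      Bal (pend X ++ st) m' := fun a => by
  have k : ∀ X Y, Good X Y → (∀ b, Y ≠ p false b true) → pend X = [] := fun X Y a c => by
    unfold pend; split; exacts [absurd ((a _).1 rfl) (c _), rfl]
  induction a with
  | nil => exact fun X c m e => ⟨m, e, fun _ => k _ _ (isChain_cons_cons.1 c).1 nofun ▸ id⟩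
  | cons Y a ih =>
    intro X c _ e0
    obtain ⟨c, c'⟩ := isChain_cons_cons.1 c
    obtain ⟨y, e, m, e', rfl⟩ := Language.mem_mul.1 e0
    clear e0
    obtain ⟨m', d, f⟩ := ih Y c' m e'
    by_cases q : ∃ o b, Y = p o b true
    · obtain ⟨_ | _, b, rfl⟩ := q <;> cases e
      · cases (c b).2 rfl
        exact ⟨_, Language.append_mem_mul rfl d, fun st t => .cl (f st t)⟩
      · exact ⟨_, Language.append_mem_mul rfl d, fun st t => k _ _ c nofun ▸ .op (f st t)⟩
    · refine ⟨y ++ m', Language.append_mem_mul ?_ d, k _ _ c (fun b e => q ⟨_, _, e⟩) ▸ Bal.cong fun st t => ?_⟩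
      · obtain _ | _ | _ | _ | _ | _ | _ | ⟨_, _, _ | _⟩ := Y <;> first | exact e | exact (q ⟨_, _, rfl⟩).elim
      · have := f st t
        unfold pend at this
        split at this
        exacts [(q ⟨_, _, rfl⟩).elim, this]

theorem sound {L : List T → Prop} (hL : ∀ w m, Der D m₀ m → Bal [] (i₀ ++ w.reverse.flatMap u ++ i₁ ++ m) → L w)
    {w : List T} (H : ReflTransGen (Step {r | RL D u i₀ i₁ m₀ r} {r | RR r}) [nonterminal s0] (w.map terminal)) :
    L w := by
  let Φ := fun x : List (Symbol T N) => x = [nonterminal s0] ∨ (∃ (a : List N) (C : N) (w : List T),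
    x = a.map nonterminal ++ nonterminal C :: w.map terminal ∧ a.head? = some g ∧
      (∀ A ∈ a, A ≠ s0 ∧ A ≠ s1 ∧ A ≠ z0 ∧ A ≠ z1) ∧
      (C = s1 ∧ (∀ m ∈ (a.map (vl D m₀ false)).prod, m = i₀ ++ w.reverse.flatMap u) ∨
        a.getLast? = some h ∧ ∃ t, C = cond t z1 z0 ∧ ∀ m ∈ (a.map (vl D m₀ t)).prod, Bal [] m → L w)) ∨
    ∃ (a : List N) (w : List T), x = a.map nonterminal ++ w.map terminal ∧ (∀ A ∈ a, A = g ∨ A = h) ∧ L w
  have sg : ∀ (A : N) (l : List (Symbol T N)), [A].map nonterminal <:+: l ↔ nonterminal A ∈ l :=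
    fun _ _ => singleton_infix_iff ..
  have st : ∀ x y, Step {r | RL D u i₀ i₁ m₀ r} {r | RR r} x y → Φ x → Φ y := by
    rintro _ _ ⟨v, v', A, x, F, rfl, rfl, r⟩ (e | ⟨a, C, w, e, e1, e2, e3⟩ | ⟨a, w, e, e1, e2⟩)
    · obtain ⟨rfl, rfl, rfl⟩ | ⟨_ | _, _, ⟨⟩, -⟩ := cut (a := []) (w := []) e.symm
      obtain ⟨⟨⟩, -⟩ | ⟨⟨⟩, -⟩ := r
      exact .inr (.inl ⟨g :: i₀.map pl, s1, [], by simp, rfl, forall_mem_cons.2 ⟨by simp, okp _⟩,
        .inl ⟨rfl, fun m e => by
          rw [map_cons, prod_cons, vl_pl, show vl D m₀ false g = 1 from rfl, one_mul] at e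
          exact Eq.trans e (append_nil _).symm⟩⟩)
    · obtain ⟨rfl, rfl, rfl⟩ | ⟨a₁, a₂, rfl, rfl, rfl⟩ := cut e.symm
      · obtain ⟨rfl, e3⟩ | ⟨e3, _ | _, rfl, e4⟩ := e3 <;> obtain ⟨⟨⟩, r⟩ | ⟨⟨⟩, -⟩ := r
        · rename_i t
          refine .inr (.inl ⟨a ++ (u t).map pl, s1, t :: w, by simp, by simp [head?_append, e1],
            forall_mem_append.2 ⟨e2, okp _⟩, .inl ⟨rfl, fun m e => ?_⟩⟩)
          rw [map_append, prod_append, vl_pl] at e
          obtain ⟨_, e', _, rfl, rfl⟩ := Language.mem_mul.1 e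
          simp [e3 _ e']
        · refine .inr (.inl ⟨a ++ (i₁.map pl ++ [s, h]), z0, w, by simp, by simp [head?_append, e1],
            forall_mem_append.2 ⟨e2, forall_mem_append.2 ⟨okp _, by simp⟩⟩, .inr ⟨by simp, false, rfl,
              fun m e => ?_⟩⟩)
          rw [map_append, prod_append, map_append, prod_append, vl_pl] at e
          obtain ⟨_, e0, _, ⟨_, rfl, m, e', rfl⟩, rfl⟩ := Language.mem_mul.1 e
          rw [e3 _ e0]
          exact fun t => hL w m (by simpa [vl] using e') (by simpa using t)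
        · refine .inr (.inl ⟨a, z1, w, by simp, e1, e2, .inr ⟨e3, true, rfl, fun m e t => ?_⟩⟩)
          obtain _ | ⟨_, a⟩ := a <;> cases e1
          obtain ⟨a, e1⟩ := getLast?_eq_some_iff.1 e3
          obtain _ | ⟨_, a⟩ := a <;> cases e1
          obtain ⟨m', b, c⟩ := trans D m₀ a g (isChain_iff_forall_rel_of_append_cons_cons.2
            fun X Y l l' e => by_contra fun q => r _ ⟨X, Y, rfl, q⟩ (IsInfix.map _ ⟨l, l', by simp [← e]⟩))
            m (by simpa [vl] using e)
          exact e4 m' (by simpa [vl] using b) (c _ t)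
        · refine .inr (.inr ⟨a, w, by simp, fun A q => ?_, e4 [] ?_ .nil⟩)
          · have k := fun a => mt (sg A _).2 (r [A] a) (mem_map_of_mem q)
            have := e2 A q
            cases A <;> first | exact (k (.inr ⟨_, _, _, rfl⟩)).elim | simp at k this ⊢
          · have : ∀ x ∈ a.map (vl D m₀ false), x = 1 := forall_mem_map.2 fun A q => by
              have := fun a => mt (sg A _).2 (r [A] a) (mem_map_of_mem q)
              cases A <;> first | rfl | exact (this (.inr ⟨_, _, _, rfl⟩)).elim | exact (this (.inl rfl)).elim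
            rw [prod_eq_one this]; rfl
        · refine .inr (.inl ⟨a, z0, w, by simp, e1, e2, .inr ⟨e3, false, rfl, ?_⟩⟩)
          rwa [map_congr_left (g := vl D m₀ true) fun A q => ?_]
          have := fun a => mt (sg A _).2 (r [A] a) (mem_map_of_mem q)
          obtain _ | _ | _ | _ | _ | _ | _ | ⟨_, _, _ | _⟩ := A <;> first | rfl | exact (this ⟨_, _, rfl⟩).elim
      · suffices ∃ y : List N, x = y.map nonterminal ∧ A ≠ g ∧ A ≠ h ∧
            (∀ A ∈ y, A ≠ s0 ∧ A ≠ s1 ∧ A ≠ z0 ∧ A ≠ z1) ∧ ∀ t, (C = s1 ∧ t = false ∨ C = cond t z1 z0) →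
              (y.map (vl D m₀ t)).prod ≤ vl D m₀ t A by
          obtain ⟨y, rfl, b1, b2, b3, b4⟩ := this
          have k : ∀ t, (C = s1 ∧ t = false ∨ C = cond t z1 z0) → ((a₁ ++ y ++ a₂).map (vl D m₀ t)).prod ≤
              ((a₁ ++ A :: a₂).map (vl D m₀ t)).prod := fun t q => by
            simp only [map_append, prod_append, map_cons, prod_cons, mul_assoc]
            exact mul_le_mul' le_rfl (mul_le_mul' (b4 t q) le_rfl)
          refine .inr (.inl ⟨a₁ ++ y ++ a₂, C, w, by simp, by cases a₁ <;> simp_all, by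
            simp only [forall_mem_append, forall_mem_cons] at e2 ⊢; exact ⟨⟨e2.1, b3⟩, e2.2.2⟩,
            e3.imp (fun ⟨c, d⟩ => ⟨c, fun m q => d m (k _ (.inl ⟨c, rfl⟩) q)⟩) fun ⟨c, t, d, e⟩ =>
              ⟨?_, t, d, fun m q => e m (k _ (.inr d) q)⟩⟩)
          obtain rfl | ⟨a₂, B, rfl⟩ := eq_nil_or_concat' a₂ 
          · simp [b2] at c
          · rw [← cons_append, ← append_assoc, getLast?_concat] at c
            rwa [← append_assoc, getLast?_concat]
        have e4 := e2 A (by simp)
        have e5 : C = s1 ∨ C = z0 ∨ C = z1 := by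
          obtain ⟨rfl, -⟩ | ⟨-, _ | _, rfl, -⟩ := e3 <;> simp
        obtain ⟨r, -⟩ | ⟨r, r'⟩ := r
        · cases r <;> try simp at e4
          · refine ⟨_, rfl, nofun, nofun, forall_mem_append.2 ⟨okp _, forall_mem_cons.2 ⟨by simp, okp _⟩⟩,
              fun t _ m e => ?_⟩
            rw [map_append, prod_append, map_cons, prod_cons, vl_pl, vl_pl] at e
            obtain ⟨_, rfl, _, ⟨m, e', _, rfl, rfl⟩, rfl⟩ := Language.mem_mul.1 e
            exact append_assoc .. ▸ Der.step ‹_› e'
          · exact ⟨_, rfl, nofun, nofun, okp _, fun t _ m e => by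
              rw [vl_pl] at e; cases e; exact .base⟩
        · replace r' : [C] ∉ F := fun q => r' _ q ((sg ..).2 (by simp))
          cases r
          · simp [or_assoc] at r'; tauto
          · simp [or_assoc] at r'; tauto
          · exact ⟨[_], rfl, nofun, nofun, by simp, by
              rintro (_ | _) q <;> simp_all [vl]⟩
          · exact ⟨[], rfl, nofun, nofun, by simp, by
              rintro (_ | _) q <;> simp_all [vl]⟩
    · obtain ⟨a₁, a₂, rfl, rfl, rfl⟩ := cut0 e.symm
      obtain rfl : x = [] := by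
        obtain rfl | rfl := e1 A (by simp) <;> obtain ⟨⟨⟩, -⟩ | ⟨⟨⟩, -⟩ := r <;> rfl
      exact .inr (.inr ⟨a₁ ++ a₂, w, by simp, fun B q => e1 B (by simp at q ⊢; tauto), e2⟩)
  have : Φ (w.map terminal) := by
    generalize w.map terminal = y at H
    induction H with
    | refl => exact .inl rfl
    | tail _ a ih => exact st _ _ a ih
  obtain e | ⟨a, C, _, e, -⟩ | ⟨_ | _, _, e, -, a⟩ := this
  · obtain _ | _ := w <;> cases e
  · simpa using (Eq.subst (motive := (nonterminal C ∈ ·)) e.symm (by simp))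
  · rwa [(List.map_inj_right fun _ _ => terminal.inj).1 e]
  · obtain _ | _ := w <;> cases e

theorem complete {w : List T} {m} (h1 : Der D m₀ m) (h2 : Bal [] (i₀ ++ w.reverse.flatMap u ++ i₁ ++ m)) :
    ReflTransGen (Step {r | RL D u i₀ i₁ m₀ r} {r | RR r}) [nonterminal s0] (w.map terminal) := by
  let St := Step {r | RL D u i₀ i₁ m₀ r} {r | RR r}
  have l : ∀ {A x F} v v', RL D u i₀ i₁ m₀ (A, x, F) → (∀ f ∈ F, ¬ f.map nonterminal <:+: v) →
    St (v ++ nonterminal A :: v') (v ++ x ++ v') := fun v v' a b => ⟨v, v', _, _, _, rfl, rfl, .inl ⟨a, b⟩⟩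
  have r : ∀ {A x F} v v', RR (A, x, F) → (∀ B, [B] ∈ F → nonterminal B ∉ v') →
      St (v ++ nonterminal A :: v') (v ++ x ++ v') := fun v v' a b => ⟨v, v', _, _, _, rfl, rfl, .inr ⟨a,
    fun f c d => by
      obtain ⟨B, rfl⟩ : ∃ B, f = [B] := by cases a <;> simp at c <;> rcases c with rfl | rfl | rfl <;> simp
      exact b B c ((singleton_infix_iff ..).1 d)⟩⟩
  let n := fun x : List (Bool × Bool) => (x.map pl).map (nonterminal (T := T))
  have k1 : ∀ w : List T, ReflTransGen St [nonterminal s0] (nonterminal g :: n (i₀ ++ w.reverse.flatMap u) ++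
      nonterminal s1 :: w.map terminal) := fun w => by
    induction w with
    | nil => exact .single (by simpa [n] using l [] [] .a nofun)
    | cons a w ih => exact ih.tail (by
        simpa [n] using l (nonterminal g :: n (i₀ ++ w.reverse.flatMap u)) (w.map terminal) (.b a) nofun)
  have k2 : ∀ m, Der D m₀ m → ∀ v v', ReflTransGen St (v ++ nonterminal s :: v') (v ++ n m ++ v') :=
    fun m h => by
      induction h with
      | base => exact fun _ _ => .single (l _ _ .e nofun)
      | @step x y _ a _ ih => exact fun v v' => .head (l _ _ (.d a) nofun) (by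
          simpa [n] using ih (v ++ n x) (n y ++ v'))
  have k3 : ∀ st W, Bal st W → ReflTransGen St (nonterminal g :: n (st.reverse.map (true, ·) ++ W) ++
      nonterminal h :: nonterminal z0 :: w.map terminal)
        (nonterminal g :: nonterminal h :: nonterminal z0 :: w.map terminal) := fun _ _ h => by
    induction h with
    | nil => rfl
    | op _ ih => simpa using ih
    | @cl b st W _ ih =>
      generalize hx : st.reverse.map (true, ·) = x at ih
      rw [reverse_cons, map_append, hx]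
      let a := nonterminal g :: n x
      let c := n W ++ [nonterminal h]
      have hc : ∀ B, nonterminal B ∈ c → B = h ∨ ∃ o b, B = p o b false := by
        simp +contextual [c, n, pl, or_imp, eq_comm]
      have ha : ∀ B, nonterminal B ∈ a → B = g ∨ ∃ o b, B = p o b false := by
        simp +contextual [a, n, pl, or_imp, eq_comm]
      have s1 := r a (nonterminal (p false b false) :: c ++ nonterminal z0 :: w.map terminal) (.c true b)
        (by rintro _ ⟨⟩; simpa using mt (hc _) (by simp))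
      have s2 := r (a ++ [nonterminal (p true b true)]) (c ++ nonterminal z0 :: w.map terminal) (.c false b)
        (by rintro _ ⟨⟩; simpa using mt (hc _) (by simp))
      have s3 := l (a ++ [nonterminal (p true b true), nonterminal (p false b true)] ++ c) (w.map terminal) .f (by
        rintro _ ⟨X, Y, rfl, q⟩ ⟨l, l', e⟩
        have : IsChain Good (g :: x.map pl ++ [p true b true, p false b true] ++ (W.map pl ++ [h])) := by
          have k : ∀ y : List N, (∀ B ∈ y, ∀ o b, B ≠ p o b true) → IsChain Good y := fun y e =>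
            (pairwise_of_forall_mem_list fun X a Y b c => iff_of_false (e _ a _ _) (e _ b _ _)).isChain
          have e1 : ∀ B ∈ g :: x.map pl, ∀ o b, B ≠ p o b true := by simp +contextual [pl, or_imp, eq_comm]
          have e2 : ∀ B ∈ W.map pl ++ [h], ∀ o b, B ≠ p o b true := by simp +contextual [pl, or_imp, eq_comm]
          exact ((k _ e1).append (by simp [Good]) fun X a Y c d => iff_of_false (e1 _ (mem_of_mem_getLast? a) _ _)
            (by cases c; nofun)).append (k _ e2) fun X a Y c d => iff_of_false (by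
              rw [show ∀ x : List N, ∀ a b, x ++ [a, b] = x ++ [a] ++ [b] by simp, getLast?_concat] at a
              cases a; nofun)
              (e2 _ (mem_of_mem_head? c) _ _)
        obtain ⟨_, l', e1, e2, rfl⟩ := map_eq_append_iff.1 (show (g :: x.map pl ++ [p true b true, p false b true] ++
          (W.map pl ++ [h])).map nonterminal = _ from Eq.trans (by simp [a, c, n]) e.symm)
        obtain ⟨l, _, rfl, rfl, e3⟩ := map_eq_append_iff.1 e2
        cases (List.map_inj_right fun _ _ => nonterminal.inj).1 e3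
        exact q (isChain_iff_forall_rel_of_append_cons_cons.1 this (by simpa using e1)))
      have s4 := r a (nonterminal (p false b true) :: c ++ nonterminal z1 :: w.map terminal) (.d true b)
        (by rintro _ (⟨⟨⟩⟩ | ⟨⟨⟩⟩) <;> simpa using mt (hc _) (by simp))
      have s5 := r a (c ++ nonterminal z1 :: w.map terminal) (.d false b)
        (by rintro _ (⟨⟨⟩⟩ | ⟨⟨⟩⟩) <;> simpa using mt (hc _) (by simp))
      have s6 := l (a ++ c) (w.map terminal) .g (by
        rintro _ ⟨o, b, rfl⟩ e
        exact (mem_append.1 ((singleton_infix_iff ..).1 e)).elim (mt (ha _) (by simp)) (mt (hc _) (by simp)))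
      simp only [a, c, n, pl, map_append, map_cons, map_nil, append_assoc, cons_append, nil_append,
        append_nil] at *
      exact .head s1 (.head s2 (.head s3 (.head s4 (.head s5 (.head s6 ih)))))
  have a1 := (k1 w).tail (l _ _ .c nofun)
  have a2 := k2 m h1 (nonterminal g :: n (i₀ ++ w.reverse.flatMap u ++ i₁))
    (nonterminal h :: nonterminal z0 :: w.map terminal)
  have a3 := k3 _ _ h2
  simp only [n, map_append, map_cons, map_nil, append_assoc, cons_append, nil_append, reverse_nil] at a1 a2 a3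
  refine a1.trans (a2.trans (a3.trans (.head (l [_, _] _ .h ?_) (.head (r [] _ .a ?_) (.single (r [] _ .b ?_))))))
  · rintro _ (rfl | ⟨_, _, _, rfl⟩) <;> simp [singleton_infix_iff]
  all_goals rintro _ (⟨⟨⟩⟩ | ⟨⟨⟩⟩ | ⟨⟨⟩⟩) <;> simp

theorem main [Finite T] [Primcodable T] (L : List T → Prop) (hL : REPred L) : GenBy 2 1 15 13 L := by
  obtain ⟨D, u, i₀, i₁, m₀, fD, hD⟩ := geff L hL
  refine ⟨N, inferInstance, s0, {r | RL D u i₀ i₁ m₀ r}, {r | RR r}, ?_, (Set.finite_range cr).subset ?_, ?_, ?_,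
    by rw [Nat.card_eq_fintype_card]; decide, ?_, fun w => ⟨fun a => ?_, sound D u i₀ i₁ m₀ fun w m a b =>
      (hD w).2 ⟨m, a, b⟩⟩⟩
  · refine ((((Set.finite_range cr).union (Set.finite_range fun a => (s1, ((u a).map pl ++ [s1]).map nonterminal ++
      [terminal a], ∅))).union (fD.image fun x => (s, (x.1.map pl ++ s :: x.2.map pl).map nonterminal, ∅))).union
        (Set.toFinite {(s0, (g :: i₀.map pl ++ [s1]).map nonterminal, ∅), (s1, (i₁.map pl ++ [s, h, z0]).map
          nonterminal, ∅), (s, (m₀.map pl).map nonterminal, ∅)})).subset ?_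
    rintro _ (_ | a | _ | a | _ | _ | _ | _)
    exacts [.inr (.inl rfl), .inl (.inl (.inr ⟨_, rfl⟩)), .inr (.inr (.inl rfl)), .inl (.inr ⟨_, a, rfl⟩),
      .inr (.inr (.inr rfl)), .inl (.inl (.inl ⟨_, rfl⟩)), .inl (.inl (.inl ⟨_, rfl⟩)), .inl (.inl (.inl ⟨_, rfl⟩))]
  · rintro _ ⟨⟩ <;> exact ⟨_, rfl⟩
  · rintro _ ⟨⟩ <;> simp +contextual [cr, or_imp]
  · rintro _ ⟨⟩ <;> simp +contextual [cr, or_imp]
  · refine (Set.ncard_le_ncard (t := Set.range cr) ?_ (Set.finite_range _)).trans
      ((Finite.card_range_le _).trans (by simp))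
    rintro _ ⟨⟨⟨⟩⟩ | ⟨⟨⟩⟩, a⟩ <;> first | exact ⟨_, rfl⟩ | exact absurd rfl a
  · obtain ⟨m, a, b⟩ := (hD w).1 a
    exact complete D u i₀ i₁ m₀ a b

theorem mirror {m n k l} {L : List T → Prop} (H : GenBy m n k l L) : GenBy n m k l fun w => L w.reverse := by
  obtain ⟨N, _, S, PL, PR, a, b, c, d, e, f, q⟩ := H
  let φ := fun r : N × List (Symbol T N) × Set (List N) => (r.1, r.2.1.reverse, reverse ⁻¹' r.2.2)
  have i : φ.Involutive := fun r => by simp [φ, Set.preimage_preimage]
  have k : ∀ P P' x y, ReflTransGen (Step P P') x y → ReflTransGen (Step (φ ⁻¹' P') (φ ⁻¹' P)) x.reverse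
      y.reverse := fun P P' x y h => h.lift reverse <| by
    rintro _ _ ⟨u, v, A, x, F, rfl, rfl, r⟩
    refine ⟨v.reverse, u.reverse, A, x.reverse, reverse ⁻¹' F, by simp, by simp, r.symm.imp ?_ ?_⟩ <;>
      exact fun ⟨a, b⟩ => ⟨Set.mem_preimage.2 (Set.mem_of_eq_of_mem (i (A, x, F)) a), fun f c d => b _ c (by simpa using reverse_infix.2 d)⟩
  refine ⟨N, ‹_›, S, φ ⁻¹' PR, φ ⁻¹' PL, b.preimage i.injective.injOn, a.preimage i.injective.injOn,
    fun r a f b => by simpa using d _ a f.reverse (by simpa [φ] using b),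
    fun r a f b => by simpa using c _ a f.reverse (by simpa [φ] using b), e,
    le_trans (Set.ncard_le_ncard_of_injOn (t := {r ∈ PL ∪ PR | r.2.2 ≠ ∅}) φ (fun r a => ⟨a.1.symm, fun t => a.2 (by
      simpa [φ, Set.preimage_preimage] using congrArg (reverse ⁻¹' ·) t)⟩) i.injective.injOn
        ((a.union b).subset fun _ a => a.1)) f,
    fun w => (q _).trans ⟨fun h => by simpa using k _ _ _ _ h, fun h => ?_⟩⟩
  simpa [i.rightInverse.preimage_preimage] using k _ _ _ _ h

theorem result (T : Type) [Finite T] [Primcodable T] (L : List T → Prop) (hL : REPred L) :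
    GenBy 2 1 15 13 L ∧ GenBy 1 2 15 13 L :=
  ⟨main L hL, by simpa using mirror (main (fun w => L w.reverse) (hL.comp Primrec.list_reverse.to_comp))⟩

end Pool.Agent.Results.MP_fc15dd_lc.Bounded
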